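import Pool.Agent.AT12.Stmts3

open scoped BigOperators

noncomputable section

namespace Pool.Agent.PP.T12.H32

open Pool.Agent.Helper51_AWC Pool.Agent.Helper79_WRA Pool.Agent.PP Pool.Agent.PP.KF
open Pool.Agent.PP.K9 Pool.Agent.PP.K9.H97 Pool.Agent.PP.H75 Pool.Agent.PP.T3 Pool.Agent.PP.T2
open Pool.Agent.PP.T8 Pool.Agent.PP.T12

attribute [local instance] Ideal.Quotient.field

/-- an abelian group with two generators and exponent `n` has at most `n * n` elements -/
theorem card_le {G : Type} [Group G] [Finite G] (V : Subgroup G)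
    (hab : ∀ a ∈ V, ∀ b ∈ V, a * b = b * a) (x y : G) (hV : V = Subgroup.closure {x, y})
    (n : ℕ) (hn : 0 < n) (hexp : Monoid.exponent V = n) : Nat.card V ≤ n * n := by
  have hx : x ∈ V := by
    rw [hV]; exact Subgroup.subset_closure (Set.mem_insert _ _)
  have hy : y ∈ V := by
    rw [hV]; exact Subgroup.subset_closure (Set.mem_insert_of_mem _ rfl)
  have hxn : x ^ n = 1 := by
    have h := Monoid.pow_exponent_eq_one (⟨x, hx⟩ : V)
    rw [hexp] at h
    exact congrArg Subtype.val h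
  have hyn : y ^ n = 1 := by
    have h := Monoid.pow_exponent_eq_one (⟨y, hy⟩ : V)
    rw [hexp] at h
    exact congrArg Subtype.val h
  have hc : Commute x y := hab x hx y hy
  have key : ∀ v ∈ V, ∃ i j : ℕ, v = x ^ i * y ^ j := by
    intro v hv
    rw [hV] at hv
    induction hv using Subgroup.closure_induction with
    | mem z hz =>
      rcases hz with hz | hz
      · exact ⟨1, 0, by rw [hz, pow_one, pow_zero, mul_one]⟩
      · rw [Set.mem_singleton_iff] at hz
        exact ⟨0, 1, by rw [hz, pow_one, pow_zero, one_mul]⟩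
    | one => exact ⟨0, 0, by rw [pow_zero, pow_zero, mul_one]⟩
    | mul a b _ _ ha hb =>
      obtain ⟨i, j, rfl⟩ := ha
      obtain ⟨k, l, rfl⟩ := hb
      refine ⟨i + k, j + l, ?_⟩
      have h1 : y ^ j * x ^ k = x ^ k * y ^ j := (hc.pow_pow k j).eq.symm
      rw [pow_add, pow_add]
      calc x ^ i * y ^ j * (x ^ k * y ^ l) = x ^ i * (y ^ j * x ^ k) * y ^ l := by
            simp only [mul_assoc]
        _ = x ^ i * (x ^ k * y ^ j) * y ^ l := by rw [h1]
        _ = x ^ i * x ^ k * (y ^ j * y ^ l) := by simp only [mul_assoc]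
    | inv a _ ha =>
      obtain ⟨i, j, rfl⟩ := ha
      refine ⟨i * (n - 1), j * (n - 1), ?_⟩
      have hcij : Commute (x ^ i) (y ^ j) := hc.pow_pow i j
      rw [inv_eq_iff_mul_eq_one, pow_mul, pow_mul, ← hcij.mul_pow, ← pow_succ',
        Nat.sub_add_cancel hn, hcij.mul_pow, ← pow_mul, ← pow_mul, mul_comm i n, mul_comm j n,
        pow_mul, pow_mul, hxn, hyn, one_pow, one_pow, mul_one]
  let φ : Fin n × Fin n → V := fun p =>
    ⟨x ^ (p.1 : ℕ) * y ^ (p.2 : ℕ), V.mul_mem (V.pow_mem hx _) (V.pow_mem hy _)⟩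
  have hφ : Function.Surjective φ := by
    rintro ⟨v, hv⟩
    obtain ⟨i, j, hij⟩ := key v hv
    refine ⟨(⟨i % n, Nat.mod_lt _ hn⟩, ⟨j % n, Nat.mod_lt _ hn⟩), ?_⟩
    apply Subtype.ext
    show x ^ (i % n) * y ^ (j % n) = v
    rw [hij, ← pow_eq_pow_mod i hxn, ← pow_eq_pow_mod j hyn]
  have h := Nat.card_le_card_of_surjective φ hφ
  rwa [Nat.card_prod, Nat.card_fin] at h

theorem ltc (hC : LbcStmt) (h8 : T8.Lt8Stmt) (h2 : T2.Lb2Stmt) : LtcStmt := by
  intro ℓ hℓ M hM hm hodd G _ _ e V γ hld a hty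
  rcases hty with h | h
  · exact h8 ℓ M hm hodd G e V γ hld a h
  · rcases Nat.lt_or_ge 2 a with h3 | h3
    · exact h8 ℓ M hm hodd G e V γ hld a (Or.inr (Or.inl ⟨h3, h.exp, h.gen⟩))
    · have ha : a = 2 := le_antisymm h3 h.le
      subst ha
      have hp : 0 < ℓ := hℓ.out.pos
      obtain ⟨x, y, hxy⟩ := h.gen
      have hcard : Nat.card V ≤ ℓ ^ 4 := by
        have h4 := card_le V hld.ab x y hxy (ℓ ^ 2) (Nat.pow_pos hp) h.exp
        rwa [← pow_add] at h4
      rcases Nat.lt_or_eq_of_le hcard with h5 | h5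
      · exact h2 ℓ M hm hodd G e V γ hld 2
          ⟨Nat.two_pos, h.exp, h5, Or.inr h.gen⟩
      · exact hC ℓ M hm hodd G e V γ hld h.exp h5 h.gen

end Pool.Agent.PP.T12.H32
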