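import Pool.Agent.AT12.Stmts2
import Pool.Agent.Helper21_AT8.SER

/-!
# SE2: the square root, with the values at all elements
-/

set_option autoImplicit false
set_option linter.unusedSectionVars false
set_option linter.style.haveILetI false

open scoped BigOperators

noncomputable section

namespace Pool.Agent.PP.T12.H32

open Pool.Agent.Helper51_AWC Pool.Agent.Helper79_WRA Pool.Agent.PP Pool.Agent.PP.KF
open Pool.Agent.PP.K9 Pool.Agent.PP.K9.H97 Pool.Agent.PP.H75 Pool.Agent.PP.T3 Pool.Agent.PP.T2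
open Pool.Agent.PP.T8 Pool.Agent.PP.T8.H21 Pool.Agent.PP.T12

attribute [local instance] Ideal.Quotient.field

theorem se2 : Se2Stmt := by
  classical
  intro ℓ hℓ M hM hlM hl2 G _ _ V hp hV g hg X R n hn hXne hX
  obtain ⟨A, hcard⟩ := IsPGroup.iff_card.1 hp
  have hnl := int_unit (M := M) hlM hn
  have hRl : ∀ y ∈ X, ¬ (ℓ : ℤ) ∣ R y := by
    intro y hy h
    have h1 := (hX y hy).2.2
    exact hn ((Int.dvd_iff_dvd_of_dvd_sub h1).1 h)
  have hR := fun y hy => int_unit (M := M) hlM (hRl y hy)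
  obtain ⟨y₀, hy₀⟩ := hXne
  rcases Nat.eq_zero_or_pos A with hA | hA
  · rw [hA, pow_zero] at hcard
    have hone : ∀ v ∈ V, v = 1 := by
      intro v hv
      have h1 : V = ⊥ := Subgroup.card_eq_one.1 hcard
      rw [h1] at hv
      exact Subgroup.mem_bot.1 hv
    have hy1 := hone y₀ (hX y₀ hy₀).1
    subst hy1
    refine ⟨fun _ => (R 1 : ℂ)⁻¹, (rva M G V hV).1 _ (hR 1 hy₀).2.1, fun y hy => ?_,
      fun v hv => ⟨0, (RM M).zero_mem, ?_⟩, fun v hv => ⟨(hR 1 hy₀).2.1, rfl⟩,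
      fun N _ _ v _ => rfl⟩
    · rw [hone y (hX y hy).1]
      exact inv_mul_cancel₀ (hR 1 hy₀).2.2
    · rw [hone v hv, (hX 1 hy₀).2.1, mul_zero, add_zero, ← mul_pow,
        inv_mul_cancel₀ (hR 1 hy₀).2.2, one_pow]
  have hpos : 0 < ℓ ^ A := pow_pos (Fact.out : ℓ.Prime).pos A
  obtain ⟨ζ, hζ⟩ : ∃ ζ : ℂ, IsPrimitiveRoot ζ (ℓ ^ A) :=
    ⟨_, Complex.isPrimitiveRoot_exp _ hpos.ne'⟩
  obtain ⟨hw, hw0, ⟨K, r₀, hr₀, hK⟩, hcong⟩ := rvc ℓ M hlM A hA ζ hζ
  have hcong' := hcong G V hV hcard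
  obtain ⟨cl, hcl, hlc⟩ := l_dvd (M := M) hA hζ
  set w : ℂ := 1 - ζ with hwdef
  -- the function `h`
  set a : ℂ := (n : ℂ)⁻¹ with ha
  have haR : a ∈ RM M := hnl.2.1
  have han : a * n = 1 := inv_mul_cancel₀ hnl.2.2
  set h : G → ℂ := fun v => g v * (a * a) + -1 with hh
  have hhR : Rv M V h := by
    have h1 := ((rva M G V hV).2.1 g (fun _ => a * a) hg
      ((rva M G V hV).1 _ ((RM M).mul_mem haR haR))).2
    exact ((rva M G V hV).2.1 _ (fun _ => -1) h1
      ((rva M G V hV).1 _ ((RM M).neg_mem (RM M).one_mem))).1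
  have hhX : ∀ y ∈ X, ∃ r ∈ RM M, h y = w * r := by
    intro y hy
    obtain ⟨-, h1, k, hk⟩ := hX y hy
    have hk' : (R y : ℂ) = n + ℓ * k := by
      have : (R y : ℤ) = n + ℓ * k := by linarith
      exact_mod_cast congrArg (Int.cast : ℤ → ℂ) this
    refine ⟨cl * k * (R y + n) * (a * a), (RM M).mul_mem ((RM M).mul_mem ((RM M).mul_mem hcl
      (rr_int k).1) ((RM M).add_mem (rr_int _).1 (rr_int _).1)) ((RM M).mul_mem haR haR), ?_⟩
    rw [hh]
    simp only
    rw [h1]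
    have e1 : (R y : ℂ) - n = w * cl * k := by rw [← hlc, hk']; ring
    have e2 : (1 : ℂ) = (a * n) * (a * n) := by rw [han, one_mul]
    linear_combination (a * a) * (R y + n) * e1 - e2
  have hhw : ∀ v ∈ V, ∃ r ∈ RM M, h v = w * r := by
    intro v hv
    obtain ⟨r1, hr1, e1⟩ := hcong' h hhR v hv
    obtain ⟨r2, hr2, e2⟩ := hcong' h hhR y₀ (hX y₀ hy₀).1
    obtain ⟨r3, hr3, e3⟩ := hhX y₀ hy₀
    refine ⟨r1 - r2 + r3, (RM M).add_mem ((RM M).sub_mem hr1 hr2) hr3, ?_⟩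
    linear_combination e1 - e2 + e3
  have hl2' : ¬ (ℓ : ℤ) ∣ 2 := by
    intro h1
    have h2 : ℓ ∣ 2 := by exact_mod_cast h1
    exact hl2 ((Nat.prime_dvd_prime_iff_eq (Fact.out : ℓ.Prime) Nat.prime_two).1 h2)
  have h2u := int_unit (M := M) hlM hl2'
  have h2R : (2 : ℂ)⁻¹ ∈ RM M := by exact_mod_cast h2u.2.1
  obtain ⟨P, Q, hP, hQ, h3, h4, h5⟩ := newton hV hhR hw hhw h2R K
  -- the approximate square root
  set s' : G → ℂ := fun v => P v * a with hs'
  have hs'R : Rv M V s' :=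
    ((rva M G V hV).2.1 P (fun _ => a) hP ((rva M G V hV).1 _ haR)).2
  have hcC : (Nat.card V : ℂ) = (ℓ : ℂ) ^ A := by
    rw [hcard]
    push_cast
    ring
  have hall : ∀ v ∈ V, ∃ q ∈ RM M, s' v ^ 2 * g v = 1 + Nat.card V * q := by
    intro y hyV
    have hQv : Q y ∈ RM M := Rv_val hV hQ hyV
    obtain ⟨r1, hr1, e1⟩ := hhw y hyV
    have hK1 : K ≤ 2 ^ K := Nat.lt_two_pow_self.le
    refine ⟨r₀ * w ^ (2 ^ K - K) * r1 ^ (2 ^ K) * Q y, (RM M).mul_mem ((RM M).mul_mem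
        ((RM M).mul_mem hr₀ ((RM M).pow_mem hw _)) ((RM M).pow_mem hr1 _)) hQv, ?_⟩
    have hz2 : s' y ^ 2 * g y = 1 + h y ^ (2 ^ K) * Q y := by
      rw [← h3 y hyV, hs', hh]
      simp only
      ring
    rw [hz2, e1, hcC, mul_pow]
    have e3 : w ^ (2 ^ K) = w ^ K * w ^ (2 ^ K - K) := by
      rw [← pow_add]
      congr 1
      omega
    rw [e3, hK]
    ring
  have hclose : ∀ y ∈ X, ∃ r ∈ RM M, (R y : ℂ)⁻¹ - s' y = Nat.card V * r := by
    intro y hy
    obtain ⟨hyV, hgy, hdy⟩ := hX y hy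
    have hPv : P y ∈ RM M := Rv_val hV hP hyV
    have hQv : Q y ∈ RM M := Rv_val hV hQ hyV
    obtain ⟨r1, hr1, e1⟩ := hhw y hyV
    obtain ⟨r2, hr2, e2⟩ := h4 y hyV
    have hRy := hR y hy
    set z : ℂ := s' y * R y with hz
    have hzR : z ∈ RM M := (RM M).mul_mem ((RM M).mul_mem hPv haR) (rr_int _).1
    have hz2 : z ^ 2 = 1 + h y ^ (2 ^ K) * Q y := by
      rw [← h3 y hyV, hz, hs', hh]
      simp only
      rw [hgy]
      ring
    have hK1 : K ≤ 2 ^ K := Nat.lt_two_pow_self.le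
    obtain ⟨q, hq, hq2⟩ : ∃ q ∈ RM M, z ^ 2 - 1 = Nat.card V * q := by
      refine ⟨r₀ * w ^ (2 ^ K - K) * r1 ^ (2 ^ K) * Q y, (RM M).mul_mem ((RM M).mul_mem
        ((RM M).mul_mem hr₀ ((RM M).pow_mem hw _)) ((RM M).pow_mem hr1 _)) hQv, ?_⟩
      rw [hz2, e1, hcC, mul_pow]
      have e3 : w ^ (2 ^ K) = w ^ K * w ^ (2 ^ K - K) := by
        rw [← pow_add]
        congr 1
        omega
      rw [e3, hK]
      ring
    have hrz : rr M z = 1 := by
      have h6 : rr M (P y) = 1 := by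
        rw [e2, rr_add (RM M).one_mem ((RM M).mul_mem hw hr2), rr_mul hw hr2, hw0, zero_mul,
          add_zero, rr_one]
      have h7 : rr M (a * R y) = 1 := by
        rw [rr_mul haR (rr_int _).1, ha, rr_inv (rr_int _).1 hnl.1]
        have h8 : rr M (R y : ℂ) = rr M (n : ℂ) := by
          have h9 : rr M ((R y - n : ℤ) : ℂ) = 0 :=
            (dvd_of_rr (M := M) (Fact.out : ℓ.Prime) hlM).2 hdy
          push_cast at h9
          rw [rr_sub (rr_int _).1 (rr_int _).1] at h9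
          exact sub_eq_zero.1 h9
        rw [h8]
        exact inv_mul_cancel₀ hnl.1
      have h10 : z = P y * (a * R y) := by
        rw [hz, hs']
        simp only
        ring
      rw [h10, rr_mul hPv ((RM M).mul_mem haR (rr_int _).1), h6, h7, one_mul]
    have hz1 : rr M (z + 1) ≠ 0 := by
      rw [rr_add hzR (RM M).one_mem, hrz, rr_one]
      have h11 := h2u.1
      rw [(rr_int 2).2] at h11
      push_cast at h11
      have h12 : (1 : FF M) + 1 = 2 := by norm_num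
      rw [h12]
      exact h11
    obtain ⟨hzi, hzn⟩ := inv_RM ((RM M).add_mem hzR (RM M).one_mem) hz1
    refine ⟨-(q * (z + 1)⁻¹ * (R y : ℂ)⁻¹), (RM M).neg_mem ((RM M).mul_mem
      ((RM M).mul_mem hq hzi) hRy.2.1), ?_⟩
    have h13 : z - 1 = Nat.card V * q * (z + 1)⁻¹ := by
      rw [← hq2]
      field_simp
      ring
    have h14 : s' y = z * (R y : ℂ)⁻¹ := by
      rw [hz, mul_assoc, mul_inv_cancel₀ hRy.2.2, mul_one]
    rw [h14]
    linear_combination -(R y : ℂ)⁻¹ * h13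
  choose! D hD1 hD2 using hclose
  have hsR : Rv M V (fun v => if v ∈ X then (R v : ℂ)⁻¹ else s' v) := by
    have h1 := (rva M G V hV).2.2.1 (fun v => if v ∈ X then D v else 0) (by
      intro v _
      by_cases h : v ∈ X
      · simp only [h, if_true]
        exact hD1 v h
      · simp only [h, if_false]
        exact (RM M).zero_mem)
    have h2 := ((rva M G V hV).2.1 s' _ hs'R h1).1
    refine Rv_congr (fun v _ => ?_) h2
    by_cases h : v ∈ X
    · simp only [h, if_true]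
      linear_combination -(hD2 v h)
    · simp only [h, if_false]
      ring
  refine ⟨fun v => if v ∈ X then (R v : ℂ)⁻¹ else s' v, hsR, fun y hy => ?_,
    fun v hv => ?_, fun v hv => ⟨Rv_val hV hsR hv, ?_⟩, fun N hN hNX v hv => ?_⟩
  · simp only [hy, if_true]
    exact inv_mul_cancel₀ (hR y hy).2.2
  · by_cases h : v ∈ X
    · refine ⟨0, (RM M).zero_mem, ?_⟩
      simp only [h, if_true]
      rw [(hX v h).2.1, mul_zero, add_zero, ← mul_pow, inv_mul_cancel₀ (hR v h).2.2, one_pow]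
    · simp only [h, if_false]
      exact hall v hv
  · obtain ⟨r1, hr1, e1⟩ := hcong' _ hsR v hv
    have h1 := Rv_val hV hsR hv
    have h2 := Rv_val hV hsR (Subgroup.one_mem V)
    have h3 := congrArg (rr M) e1
    rw [rr_sub h1 h2, rr_mul hw hr1, hw0, zero_mul] at h3
    exact sub_eq_zero.1 h3
  · by_cases h : v ∈ X
    · have h1 := (hNX v hv).2 h
      simp only [h, h1, if_true]
      have h2 : R (v ^ N) = R v := by
        obtain ⟨-, e1, k1, hk1⟩ := hX _ h1
        obtain ⟨-, e2, k2, hk2⟩ := hX _ h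
        have h3 : (R (v ^ N) : ℂ) ^ 2 = (R v : ℂ) ^ 2 := by rw [← e1, ← e2, hN v hv]
        have h4 : R (v ^ N) ^ 2 = R v ^ 2 := by exact_mod_cast h3
        rcases sq_eq_sq_iff_eq_or_eq_neg.1 h4 with h5 | h5
        · exact h5
        · exfalso
          have h6 : (ℓ : ℤ) ∣ 2 * n := ⟨-(k1 + k2), by linarith⟩
          rcases (Nat.prime_iff_prime_int.1 (Fact.out : ℓ.Prime)).dvd_or_dvd h6 with h7 | h7
          · exact hl2' h7
          · exact hn h7
      rw [h2]
    · have h1 : v ^ N ∉ X := fun h1 => h ((hNX v hv).1 h1)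
      simp only [h, h1, if_false]
      rw [hs']
      simp only
      rw [(h5 N (fun u hu => by rw [hh]; simp only; rw [hN u hu]) v hv).1]

end Pool.Agent.PP.T12.H32
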